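import Pool.Agent.helper74.NL.Spec
import Pool.Agent.helper74.MP.MD

/-!
# nl: SD2, points outside of the discs whose image is inside
-/

set_option autoImplicit false

open Complex Metric Set Filter Topology MeasureTheory MPS Pool.Agent.helper98.ILF

noncomputable section

namespace NLF

section
variable {k : ℕ} [NeZero k]

/-- lower estimate of `f` near the cycle. -/
theorem SD2_low {n : ℕ} {c : ℂ} {b : ZMod k → ℂ} (hn : 2 ≤ n) (hc : IsCyc n c b) {η : ℝ}
    (hη : 0 < η) : ∀ᶠ t in 𝓝[>] (0 : ℝ), ∀ i : ZMod k, ∀ y : ℂ, ‖y - b i‖ < t →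
      (1 - η) * ‖fd n (b i)‖ * ‖y - b i‖ ≤ ‖y ^ n + c - b (i + 1)‖ := by
  rw [eventually_all]
  intro i
  have hf0 := MD_fd0 hn hc i
  have hd : HasDerivAt (fun y : ℂ => y ^ n + c) (fd n (b i)) (b i) := by
    have := (hasDerivAt_pow n (b i)).add_const c
    exact this
  have hpos : 0 < η * ‖fd n (b i)‖ := mul_pos hη (norm_pos_iff.mpr hf0)
  have h1 := (hasDerivAt_iff_isLittleO.mp hd).bound hpos
  obtain ⟨δ, hδ, hδ2⟩ := Metric.eventually_nhds_iff_ball.mp h1
  have hev : ∀ᶠ t in 𝓝[>] (0 : ℝ), t < δ := nhdsWithin_le_nhds (gt_mem_nhds hδ)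
  filter_upwards [hev] with t ht y hy
  have h2 := hδ2 y (by rw [mem_ball, dist_eq_norm]; exact hy.trans ht)
  rw [smul_eq_mul, hc.step i] at h2
  have h3 : ‖(y - b i) * fd n (b i)‖ ≤ ‖y ^ n + c - b (i + 1)‖ +
      ‖y ^ n + c - b (i + 1) - (y - b i) * fd n (b i)‖ := by
    have h4 : (y - b i) * fd n (b i) = (y ^ n + c - b (i + 1)) -
        (y ^ n + c - b (i + 1) - (y - b i) * fd n (b i)) := by ring
    calc _ = ‖(y ^ n + c - b (i + 1)) -
          (y ^ n + c - b (i + 1) - (y - b i) * fd n (b i))‖ := by rw [← h4]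
      _ ≤ _ := norm_sub_le _ _
  rw [norm_mul] at h3
  nlinarith [h2, h3]

/-- bound of `B` away from the cycle. -/
theorem SD2_bd (b g : ZMod k → ℂ) {t : ℝ} (ht : 0 < t) (z : ℂ) (hz : ∀ i, t ≤ ‖z - b i‖) :
    ‖BB b g z‖ ≤ ∑ i, (1 / t ^ 2 + ‖g i‖ / t) := by
  unfold BB
  refine norm_sum_le_of_le _ fun i _ => ?_
  refine (norm_add_le _ _).trans (add_le_add ?_ ?_)
  · rw [norm_div, norm_one, norm_pow]
    have := hz i
    gcongr
  · rw [norm_div]
    have := hz i
    gcongr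

theorem SD2_null {n : ℕ} (hn : 2 ≤ n) (c : ℂ) (b : ZMod k → ℂ) :
    volume {z : ℂ | ∃ m, z ^ n + c = b m} = 0 := by
  have hfin : Set.Finite {z : ℂ | ∃ m, z ^ n + c = b m} := by
    have h1 : {z : ℂ | ∃ m, z ^ n + c = b m} ⊆
        ⋃ m : ZMod k, ((Polynomial.nthRoots n (b m - c)).toFinset : Set ℂ) := by
      rintro z ⟨m, hm⟩
      rw [mem_iUnion]
      refine ⟨m, ?_⟩
      rw [Finset.mem_coe, Multiset.mem_toFinset, Polynomial.mem_nthRoots (by omega)]
      rw [← hm]; ring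
    exact (Set.finite_iUnion fun m => Finset.finite_toSet _).subset h1
  exact hfin.measure_zero _

/-- the preimage of the small discs in `ball 0 4`. -/
def SD2_F (n : ℕ) (c : ℂ) (b : ZMod k → ℂ) (r : ZMod k → ℝ) (s : ℝ) : Set ℂ :=
  ball 0 4 ∩ ⋃ m, {z : ℂ | ‖z ^ n + c - b m‖ < s * r m}

theorem SD2_Fmeas (n : ℕ) (c : ℂ) (b : ZMod k → ℂ) (r : ZMod k → ℝ) (s : ℝ) :
    MeasurableSet (SD2_F n c b r s) := by
  unfold SD2_F
  refine measurableSet_ball.inter (MeasurableSet.iUnion fun m => ?_)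
  exact (isOpen_lt (by fun_prop) continuous_const).measurableSet

theorem SD2_Flim {n : ℕ} (hn : 2 ≤ n) (c : ℂ) (b : ZMod k → ℂ) (r : ZMod k → ℝ)
    (hr : ∀ i, 0 < r i) :
    Tendsto (fun s => volume (SD2_F n c b r s)) (𝓝[>] (0 : ℝ)) (𝓝 0) := by
  have h1 := tendsto_measure_biInter_gt (μ := (volume : Measure ℂ)) (s := SD2_F n c b r) (a := (0 : ℝ))
    (fun s _ => (SD2_Fmeas n c b r s).nullMeasurableSet)
    (fun i j hi hij => by
      unfold SD2_F
      refine inter_subset_inter_right _ (iUnion_mono fun m => ?_)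
      intro z hz
      rw [Set.mem_ofPred_eq] at hz ⊢
      exact hz.trans_le (mul_le_mul_of_nonneg_right hij (hr m).le))
    ⟨1, one_pos, (lt_of_le_of_lt (measure_mono inter_subset_left) measure_ball_lt_top).ne⟩
  have h2 : volume (⋂ s > (0 : ℝ), SD2_F n c b r s) = 0 := by
    refine measure_mono_null ?_ (SD2_null hn c b)
    intro z hz
    rw [mem_iInter₂] at hz
    rw [Set.mem_ofPred_eq]
    by_contra hcon
    push Not at hcon
    have h3 : ∀ᶠ s in 𝓝[>] (0 : ℝ), ∀ m, s * r m < ‖z ^ n + c - b m‖ := by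
      rw [eventually_all]
      intro m
      have h4 : Tendsto (fun s : ℝ => s * r m) (𝓝[>] 0) (𝓝 0) := by
        have : Tendsto (fun s : ℝ => s * r m) (𝓝 0) (𝓝 (0 * r m)) :=
          tendsto_id.mul_const (r m)
        rw [zero_mul] at this
        exact this.mono_left nhdsWithin_le_nhds
      have h5 : 0 < ‖z ^ n + c - b m‖ := norm_pos_iff.mpr (sub_ne_zero.mpr (hcon m))
      exact (tendsto_order.1 h4).2 _ h5
    obtain ⟨s, hs, hs0⟩ := (h3.and self_mem_nhdsWithin).exists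
    have h6 := (hz s hs0).2
    rw [mem_iUnion] at h6
    obtain ⟨m, hm⟩ := h6
    rw [Set.mem_ofPred_eq] at hm
    exact absurd hm (not_lt.mpr (hs m).le)
  rw [h2] at h1
  exact h1

end

theorem SD2 (hMI : MPS.MI_stmt) : SD2_stmt := by
  intro n k _ c b g r hn hc hr hrr δ hδ
  have hκ : 0 < ∑ _i : ZMod k, (1 : ℝ) := Finset.sum_pos (fun _ _ => one_pos) ⟨0, Finset.mem_univ _⟩
  set κ : ℝ := ∑ _i : ZMod k, (1 : ℝ) with hκdef
  obtain ⟨η, hη0, hη1, hη2⟩ : ∃ η : ℝ, 0 < η ∧ η ≤ 1 / 2 ∧ 4 * Real.pi * κ * η ≤ δ / 4 := by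
    refine ⟨min (1 / 2) (δ / (16 * Real.pi * κ)), lt_min (by norm_num) (by positivity),
      min_le_left _ _, ?_⟩
    have h1 : min (1 / 2) (δ / (16 * Real.pi * κ)) ≤ δ / (16 * Real.pi * κ) := min_le_right _ _
    calc 4 * Real.pi * κ * min (1 / 2) (δ / (16 * Real.pi * κ))
        ≤ 4 * Real.pi * κ * (δ / (16 * Real.pi * κ)) := by gcongr
      _ = δ / 4 := by
        have := Real.pi_pos
        field_simp
        ring
  have hη3 : 0 < 1 - η := by linarith
  have hlog : Real.log (1 / (1 - η)) ≤ 2 * η := by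
    have h1 := Real.log_le_sub_one_of_pos (x := 1 / (1 - η)) (by positivity)
    have h2 : 1 / (1 - η) - 1 = η / (1 - η) := by field_simp; ring
    have h3 : η / (1 - η) ≤ 2 * η := by
      rw [div_le_iff₀ hη3]
      nlinarith
    linarith
  obtain ⟨C, hC, hloc⟩ := MD_loc b g hc.inj
  have hBm : Measurable (BB b g) := (hMI.1 n k c b g).1
  obtain ⟨t', ht', ht'0⟩ := ((MD_disj b hc.inj).and self_mem_nhdsWithin).exists
  have hsm : ∀ (a : ZMod k → ℝ) (d : ℝ), 0 < d → ∀ᶠ s in 𝓝[>] (0 : ℝ), ∀ i, a i * s < d := by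
    intro a d hd
    rw [eventually_all]
    intro i
    have h4 : Tendsto (fun s : ℝ => a i * s) (𝓝[>] 0) (𝓝 0) := by
      have : Tendsto (fun s : ℝ => a i * s) (𝓝 0) (𝓝 (a i * 0)) := tendsto_id.const_mul (a i)
      rw [mul_zero] at this
      exact this.mono_left nhdsWithin_le_nhds
    exact (tendsto_order.1 h4).2 _ hd
  obtain ⟨t, ⟨⟨⟨P1, P2⟩, P3⟩, P4⟩, ht0⟩ :=
    ((((hloc.and (MD_der hn hc one_pos)).and (SD2_low hn hc hη0)).and
      (hsm (fun i => (1 + 1) * ‖fd n (b i)‖) t' ht'0)).and self_mem_nhdsWithin).exists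
  -- the far part
  set Ct : ℝ := ∑ i, (1 / t ^ 2 + ‖g i‖ / t) with hCt
  have hfar : ∀ᶠ s in 𝓝[>] (0 : ℝ), ENNReal.ofReal Ct * volume (SD2_F n c b r s) <
      ENNReal.ofReal (δ / 2) := by
    have h1 : Tendsto (fun s => ENNReal.ofReal Ct * volume (SD2_F n c b r s)) (𝓝[>] (0 : ℝ))
        (𝓝 (ENNReal.ofReal Ct * 0)) :=
      ENNReal.Tendsto.const_mul (SD2_Flim hn c b r hr) (Or.inr ENNReal.ofReal_ne_top)
    rw [mul_zero] at h1
    exact (tendsto_order.1 h1).2 _ (ENNReal.ofReal_pos.mpr (by positivity))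
  have hsum : ∀ᶠ s in 𝓝[>] (0 : ℝ), ∑ i, 2 * Real.pi * C * (s * r i / (1 - η)) < δ / 4 := by
    have h1 : Tendsto (fun s : ℝ => ∑ i, 2 * Real.pi * C * (s * r i / (1 - η))) (𝓝 0)
        (𝓝 (∑ i, 2 * Real.pi * C * (0 * r i / (1 - η)))) := by
      refine Continuous.tendsto ?_ 0
      fun_prop
    have h2 : ∑ i, 2 * Real.pi * C * (0 * r i / (1 - η)) = 0 := by simp
    rw [h2] at h1
    exact (tendsto_order.1 (h1.mono_left nhdsWithin_le_nhds)).2 _ (by positivity)
  filter_upwards [self_mem_nhdsWithin, hsm r t' ht'0, hsm (fun i => r i / (1 - η)) t ht0, hfar, hsum]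
    with s hs0 hs1 hs2 hs3 hs4
  have hs0 : 0 < s := hs0
  have hsub : (KK b (fun i => s * r i) \ {z : ℂ | z ^ n + c ∈ KK b (fun i => s * r i)}) ∩ ball 0 4 ⊆
      (⋃ i, ball (b i) (s * r i / (1 - η)) \ ball (b i) (s * r i)) ∪
        (SD2_F n c b r s ∩ {z | ∀ i, t ≤ ‖z - b i‖}) := by
    rintro z ⟨⟨hz1, hz2⟩, hz3⟩
    have hz1' : ∀ i, z ∉ ball (b i) (s * r i) := by
      intro i hi
      exact hz1 (mem_iUnion.mpr ⟨i, hi⟩)
    have hz2' : ∃ m, z ^ n + c ∈ ball (b m) (s * r m) := by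
      rw [Set.mem_ofPred_eq] at hz2
      unfold KK at hz2
      rw [notMem_compl_iff, mem_iUnion] at hz2
      exact hz2
    obtain ⟨m, hm⟩ := hz2'
    by_cases hnear : ∃ i, ‖z - b i‖ < t
    · left
      obtain ⟨i, hi⟩ := hnear
      rw [mem_iUnion]
      refine ⟨i, ?_, hz1' i⟩
      have h1 := P2 i z hi
      have h2 : z ^ n + c ∈ ball (b (i + 1)) t' := by
        rw [mem_ball, dist_eq_norm]
        calc ‖z ^ n + c - b (i + 1)‖ ≤ (1 + 1) * ‖fd n (b i)‖ * ‖z - b i‖ := h1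
          _ ≤ (1 + 1) * ‖fd n (b i)‖ * t := by gcongr
          _ < t' := P4 i
      have h3 : z ^ n + c ∈ ball (b m) t' := by
        refine ball_subset_ball ?_ hm
        have := hs1 m
        linarith [mul_comm s (r m)]
      have h4 : m = i + 1 := by
        by_contra hne
        exact Set.disjoint_left.mp (ht' m (i + 1) hne) h3 h2
      subst h4
      have h5 := P3 i z hi
      rw [mem_ball, dist_eq_norm] at hm ⊢
      have hf0 : 0 < ‖fd n (b i)‖ := norm_pos_iff.mpr (MD_fd0 hn hc i)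
      have h6 : (1 - η) * ‖fd n (b i)‖ * ‖z - b i‖ < s * (‖fd n (b i)‖ * r i) := by
        calc _ ≤ _ := h5
          _ < s * r (i + 1) := hm
          _ ≤ s * (‖fd n (b i)‖ * r i) := by
            have := hrr i
            gcongr
      rw [lt_div_iff₀ hη3]
      have h7 : ‖fd n (b i)‖ * (‖z - b i‖ * (1 - η)) < ‖fd n (b i)‖ * (s * r i) := by
        linarith [h6, mul_comm (1 - η) ‖fd n (b i)‖, mul_assoc ‖fd n (b i)‖ (1 - η) ‖z - b i‖,
          mul_comm (1 - η) ‖z - b i‖]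
      exact lt_of_mul_lt_mul_left h7 hf0.le
    · right
      push Not at hnear
      refine ⟨⟨hz3, ?_⟩, hnear⟩
      rw [mem_iUnion]
      refine ⟨m, ?_⟩
      rw [mem_ball, dist_eq_norm] at hm
      exact hm
  have hann : ∀ i, ∫⁻ z in ball (b i) (s * r i / (1 - η)) \ ball (b i) (s * r i),
      ENNReal.ofReal ‖BB b g z‖ ≤ ENNReal.ofReal (2 * Real.pi * (2 * η) +
        2 * Real.pi * C * (s * r i / (1 - η))) := by
    intro i
    have hsr : 0 < s * r i := mul_pos hs0 (hr i)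
    have h1 : s * r i ≤ s * r i / (1 - η) := by
      rw [le_div_iff₀ hη3]
      nlinarith
    have h2 := (MD_annB hMI (C := C) (s := s * r i) (t := s * r i / (1 - η)) hBm hC hsr h1 i
      (fun z hz hz2 => P1 i z hz (hz2.trans (by
        have := hs2 i
        have h3 : s * r i / (1 - η) = r i / (1 - η) * s := by ring
        rw [h3]; exact this)))).1
    refine h2.trans ?_
    have h4 : s * r i / (1 - η) / (s * r i) = 1 / (1 - η) := by
      have := hsr.ne'
      rw [div_div, mul_comm (1 - η) (s * r i), ← div_div, div_self this]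
    rw [h4, ← ENNReal.ofReal_add]
    · refine ENNReal.ofReal_le_ofReal ?_
      have := Real.pi_pos
      gcongr
    · have := Real.pi_pos
      have h5 : 0 ≤ Real.log (1 / (1 - η)) := Real.log_nonneg (by
        rw [le_div_iff₀ hη3]; linarith)
      positivity
    · have := Real.pi_pos
      positivity
  have hfar2 : ∫⁻ z in SD2_F n c b r s ∩ {z | ∀ i, t ≤ ‖z - b i‖}, ENNReal.ofReal ‖BB b g z‖ ≤
      ENNReal.ofReal (δ / 2) := by
    have hmeas : MeasurableSet (SD2_F n c b r s ∩ {z | ∀ i, t ≤ ‖z - b i‖}) := by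
      refine (SD2_Fmeas n c b r s).inter ?_
      have : {z : ℂ | ∀ i, t ≤ ‖z - b i‖} = ⋂ i, {z : ℂ | t ≤ ‖z - b i‖} := by
        ext z; simp
      rw [this]
      exact MeasurableSet.iInter fun i =>
        (isClosed_le continuous_const (by fun_prop)).measurableSet
    calc ∫⁻ z in SD2_F n c b r s ∩ {z | ∀ i, t ≤ ‖z - b i‖}, ENNReal.ofReal ‖BB b g z‖
        ≤ ∫⁻ _z in SD2_F n c b r s ∩ {z | ∀ i, t ≤ ‖z - b i‖}, ENNReal.ofReal Ct :=
          setLIntegral_mono' hmeas fun z hz => ENNReal.ofReal_le_ofReal (SD2_bd b g ht0 z hz.2)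
      _ = ENNReal.ofReal Ct * volume (SD2_F n c b r s ∩ {z | ∀ i, t ≤ ‖z - b i‖}) := by
          rw [setLIntegral_const]
      _ ≤ ENNReal.ofReal Ct * volume (SD2_F n c b r s) := by
          gcongr
          exact inter_subset_left
      _ ≤ _ := hs3.le
  calc ∫⁻ z in (KK b (fun i => s * r i) \ {z : ℂ | z ^ n + c ∈ KK b (fun i => s * r i)}) ∩ ball 0 4,
        ENNReal.ofReal ‖BB b g z‖
      ≤ ∫⁻ z in (⋃ i, ball (b i) (s * r i / (1 - η)) \ ball (b i) (s * r i)) ∪
        (SD2_F n c b r s ∩ {z | ∀ i, t ≤ ‖z - b i‖}), ENNReal.ofReal ‖BB b g z‖ :=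
        lintegral_mono_set hsub
    _ ≤ (∫⁻ z in ⋃ i, ball (b i) (s * r i / (1 - η)) \ ball (b i) (s * r i),
          ENNReal.ofReal ‖BB b g z‖) +
        ∫⁻ z in SD2_F n c b r s ∩ {z | ∀ i, t ≤ ‖z - b i‖}, ENNReal.ofReal ‖BB b g z‖ :=
        lintegral_union_le _ _ _
    _ ≤ (∑ i, ENNReal.ofReal (2 * Real.pi * (2 * η) +
        2 * Real.pi * C * (s * r i / (1 - η)))) + ENNReal.ofReal (δ / 2) := by
        refine add_le_add ?_ hfar2
        refine (lintegral_iUnion_le _ _).trans ?_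
        rw [tsum_fintype]
        exact Finset.sum_le_sum fun i _ => hann i
    _ = ENNReal.ofReal ((∑ i, (2 * Real.pi * (2 * η) +
        2 * Real.pi * C * (s * r i / (1 - η)))) + δ / 2) := by
        have hpi := Real.pi_pos
        have hnn : ∀ i, 0 ≤ 2 * Real.pi * (2 * η) + 2 * Real.pi * C * (s * r i / (1 - η)) := by
          intro i
          have := hr i
          positivity
        rw [ENNReal.ofReal_add (Finset.sum_nonneg fun i _ => hnn i) (by positivity),
          ENNReal.ofReal_sum_of_nonneg fun i _ => hnn i]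
    _ ≤ ENNReal.ofReal δ := by
        refine ENNReal.ofReal_le_ofReal ?_
        rw [Finset.sum_add_distrib]
        have h1 : ∑ _i : ZMod k, 2 * Real.pi * (2 * η) = 4 * Real.pi * κ * η := by
          rw [hκdef, Finset.mul_sum, Finset.sum_mul]
          refine Finset.sum_congr rfl fun i _ => ?_
          ring
        rw [h1]
        linarith

end NLF
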